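import Mathlib
import Pool.Agent.Helper669.UFinal

set_option autoImplicit false

/-!
# The square bracket relation `μ⁺⁺ → [μ⁺]^{ℵ₀}_{μ⁺}` with `μ = 2 ^ ℵ₀`, from a huge cardinal
-/

namespace Pool.Agent.Results.MP_f663dd_lc.HugeIteration

open Cardinal Pool.Agent.Helper669.Forcing Pool.Agent.Helper669.K Pool.Agent.Helper669.U

/-- Let `κ` be a huge cardinal with target `m`. There is a forcing notion which forces that
`ω₁`, `κ` and `m` are regular cardinals, every cardinal below `κ` has cardinality at most `ℵ₁`,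
every cardinal below `m` has cardinality at most `κ` (so `κ = ℵ₂` and `m = ℵ₃ = κ⁺`), the
continuum hypothesis holds (so `μ = 2 ^ ℵ₀ = ℵ₁`, `κ = μ⁺` and `m = μ⁺⁺`), and
`m → [κ]^{ℵ₀}_κ`: for every function from the countably infinite subsets of `m` to `κ` there is
`X ⊆ m` of cardinality `κ` such that some element of `κ` is not a value of the function on
the countably infinite subsets of `X`. -/
theorem result (κ m : Cardinal.{0}) (h : IsHuge κ m) :
    ∃ (P : Type) (_ : Preorder P), Nonempty P ∧ ∀ p : P,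
      p ∈ StaysRegular P ℵ₁ ∧ p ∈ StaysRegular P κ ∧ p ∈ StaysRegular P m ∧
      p ∈ CollapsedTo P ℵ₁ κ ∧ p ∈ CollapsedTo P κ m ∧ p ∈ ForcesCH P ∧
      p ∈ SquareBracket P κ.ord.ToType m.ord.ToType :=
  huge_iteration h

end Pool.Agent.Results.MP_f663dd_lc.HugeIteration
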